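import Pool.Agent.Helper27.NB.Defs
import Pool.Agent.Helper58.NF.Label

/-!
# NB, B6: the labels of a closing time
-/

set_option autoImplicit false

namespace Pool.Agent.Helper58.NB

open Pool.Agent.Helper6.IP (cnt)
open Pool.Agent.Helper19.NF (Prog obs val ring out CF Pos Dir pos Label Idx Valid lev pst slt dirs oth)
open Pool.Agent.Helper27.NB
open Pool.Agent.Helper58.NF (ring_apply pos_congr)

/-! ## The number of the symbols of a block -/

section rd

variable {B Λ Z : Type} {o : ℕ → (B × Λ) ⊕ Z} {b : B}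

theorem rd_finite [Finite Λ] (o : ℕ → (B × Λ) ⊕ Z) (b : B) (t : ℕ) :
    {l : Λ | ∃ j < t, o j = Sum.inl (b, l)}.Finite := Set.toFinite _

theorem rd_mono [Finite Λ] {t t' : ℕ} (h : t ≤ t') : rd o b t ≤ rd o b t' := by
  refine Set.ncard_le_ncard ?_ (rd_finite o b t')
  rintro l ⟨j, hj, hjo⟩
  exact ⟨j, by omega, hjo⟩

theorem rd_zero : rd o b 0 = 0 := by
  unfold rd
  have : {l : Λ | ∃ j < 0, o j = Sum.inl (b, l)} = ∅ := by
    ext l
    simp
  rw [this, Set.ncard_empty]

theorem rd_succ_le [Finite Λ] (t : ℕ) : rd o b (t + 1) ≤ rd o b t + 1 := by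
  by_cases h : ∃ l, o t = Sum.inl (b, l)
  · obtain ⟨l, hl⟩ := h
    have hsub : {l : Λ | ∃ j < t + 1, o j = Sum.inl (b, l)} ⊆
        insert l {l : Λ | ∃ j < t, o j = Sum.inl (b, l)} := by
      rintro l' ⟨j, hj, hjo⟩
      rcases Nat.lt_succ_iff_lt_or_eq.1 hj with hj | hj
      · exact Or.inr ⟨j, hj, hjo⟩
      · rw [hj, hl] at hjo
        left
        have := Sum.inl_injective hjo
        exact (congrArg Prod.snd this).symm
    exact (Set.ncard_le_ncard hsub (Set.toFinite _)).trans (Set.ncard_insert_le _ _)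
  · refine le_trans (Set.ncard_le_ncard ?_ (rd_finite o b t)) (Nat.le_succ _)
    rintro l' ⟨j, hj, hjo⟩
    rcases Nat.lt_succ_iff_lt_or_eq.1 hj with hj | hj
    · exact ⟨j, hj, hjo⟩
    · rw [hj] at hjo
      exact absurd ⟨l', hjo⟩ h

theorem new_of_lt [Finite Λ] {t : ℕ} (h : rd o b t < rd o b (t + 1)) : New o b t := by
  by_contra hn
  have hsub : {l : Λ | ∃ j < t + 1, o j = Sum.inl (b, l)} ⊆ {l : Λ | ∃ j < t, o j = Sum.inl (b, l)} := by
    rintro l' ⟨j, hj, hjo⟩
    rcases Nat.lt_succ_iff_lt_or_eq.1 hj with hj | hj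
    · exact ⟨j, hj, hjo⟩
    · rw [hj] at hjo
      by_contra hcon
      refine hn ⟨l', hjo, fun i hi hio => hcon ⟨i, hi, hio⟩⟩
  have := Set.ncard_le_ncard hsub (rd_finite o b t)
  unfold rd at h
  omega

/-- If more than `a` symbols are observed then the block gets ripe before. -/
theorem exists_rip [Finite Λ] {a t : ℕ} (h : a + 1 ≤ rd o b t) : ∃ r < t, Rip a o b r := by
  classical
  have hex : ∃ t, a + 1 ≤ rd o b t := ⟨t, h⟩
  have h0 := Nat.find_spec hex
  have hmin : ∀ j < Nat.find hex, rd o b j ≤ a := fun j hj => by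
    have := Nat.find_min hex hj
    omega
  have hpos : Nat.find hex ≠ 0 := by
    intro h1
    rw [h1, rd_zero] at h0
    omega
  obtain ⟨r, hr⟩ : ∃ r, Nat.find hex = r + 1 := ⟨Nat.find hex - 1, by omega⟩
  have hle : Nat.find hex ≤ t := Nat.find_min' hex h
  have h1 := hmin r (by omega)
  rw [hr] at h0
  have h2 := rd_succ_le (o := o) (b := b) r
  exact ⟨r, by omega, new_of_lt (by omega), by omega⟩

end rd

section

variable {n m : ℕ} [NeZero m] {B Λ Z : Type} [AddCommGroup B]
variable {x0 : Pos n m → B} {I : B → Dir m → B} {o : ℕ → (B × Λ) ⊕ Z} {a : ℕ}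

theorem inR_of_chain {c : ℕ → Dir m} {s : ℕ → ℕ} {l j : ℕ} (h : Chain a x0 I o c s l) (hj : j ≤ l) :
    InR a x0 I o j (pos n c j) (s j) :=
  ⟨c, s, ⟨fun i h1 h2 => h.1 i h1 (by omega), fun i h1 h2 => h.2 i h1 (by omega)⟩, rfl, rfl⟩

theorem inR_early {l : ℕ} {w : Pos n m} {t : ℕ} (hl : 1 ≤ l) (h : InR a x0 I o l w t) :
    Early a o (val (ring n m) x0 I (n - l) w) t := by
  obtain ⟨c, s, hc, hw, ht⟩ := h
  have h1 := hc.1 l hl le_rfl
  rw [hw, ht] at h1
  exact h1

theorem inR_step {l : ℕ} {w : Pos n m} {t t' : ℕ} {d : Dir m} (h : InR a x0 I o l w t)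
    (he : Early a o (val (ring n m) x0 I (n - (l + 1)) (ring n m d w)) t') (hlt : 1 ≤ l → t' < t) :
    InR a x0 I o (l + 1) (ring n m d w) t' := by
  obtain ⟨c, s, hc, hw, ht⟩ := h
  have hp : ∀ j ≤ l, pos n (Function.update c l d) j = pos n c j :=
    pos_congr (fun j hj => Function.update_of_ne (by omega) _ _)
  have hl : pos n (Function.update c l d) (l + 1) = ring n m d w := by
    rw [pos, hp l le_rfl, hw, Function.update_self]
  have hs : ∀ j ≤ l, Function.update s (l + 1) t' j = s j :=
    fun j hj => Function.update_of_ne (by omega) _ _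
  refine ⟨Function.update c l d, Function.update s (l + 1) t', ⟨fun j h1 h2 => ?_, fun j h1 h2 => ?_⟩, hl,
    Function.update_self _ _ _⟩
  · rcases Nat.lt_or_ge l j with h | h
    · have hjl : j = l + 1 := by omega
      rw [hjl, hl, Function.update_self]
      exact he
    · rw [hp j h, hs j h]
      exact hc.1 j h1 h
  · rcases Nat.lt_or_ge j l with h | h
    · rw [hs j (by omega), hs (j + 1) (by omega)]
      exact hc.2 j h1 h
    · have hjl : j = l := by omega
      rw [hjl, Function.update_self, hs l le_rfl, ht]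
      exact hlt (by omega)

/-- A saturated position: its block gets ripe, and all its early times are reached. -/
def Sat (a : ℕ) (x0 : Pos n m → B) (I : B → Dir m → B) (o : ℕ → (B × Λ) ⊕ Z) (l : ℕ) (w : Pos n m) : Prop :=
  (∃ r, Rip a o (val (ring n m) x0 I (n - l) w) r) ∧
    ∀ t, Early a o (val (ring n m) x0 I (n - l) w) t → InR a x0 I o l w t

/-- The key: a position which is not saturated is not ripe at the times of its parents in `InR`. -/
theorem rd_le_of_not_sat [Finite Λ] {l : ℕ} {w : Pos n m} {t : ℕ} {d : Dir m} (h : InR a x0 I o l w t)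
    (h' : ¬ Sat a x0 I o (l + 1) (ring n m d w)) :
    rd o (val (ring n m) x0 I (n - l - 1) (ring n m d w)) t ≤ a := by
  by_contra hcon
  push Not at hcon
  have hnl : n - l - 1 = n - (l + 1) := by omega
  rw [hnl] at hcon
  refine h' ⟨?_, fun t' ht' => inR_step h ht' (fun _ => ?_)⟩
  · obtain ⟨r, -, hr⟩ := exists_rip hcon
    exact ⟨r, hr⟩
  · by_contra hlt
    push Not at hlt
    have h1 := rd_mono (o := o) (b := val (ring n m) x0 I (n - (l + 1)) (ring n m d w)) hlt
    have h2 := ht'.2
    omega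

theorem not_sat_top {w : Pos n m} (hR : ∀ w t, ¬ InR a x0 I o n w t) : ¬ Sat a x0 I o n w := by
  rintro ⟨⟨r, hr⟩, h⟩
  exact hR w r (h r ⟨hr.1, hr.2.le⟩)

/-- B6: the labels of a closing time. -/
theorem exists_label [Fintype Λ] (_hn : 1 ≤ n) (x0 : Pos n m → B) (I : B → Dir m → B)
    (_hI : CF (ring n m) x0 n I)
    (o : ℕ → (B × Λ) ⊕ Z) (T T' : ℕ) (hT : ∀ t b, New o b t → cnt o t < T)
    (hT' : ∀ t b, Rip a o b t → crip a o t < T')
    (hR : ∀ w t, ¬ InR a x0 I o n w t) (c : ℕ → Dir m) (s : ℕ → ℕ) (hc : Chain a x0 I o c s (n - 1)) :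
    ∃ (L : Fin (n - 1) → Label n m) (num : Idx L → ℕ), Valid L ∧ Fits L T T' num ∧ Typ a x0 I o L num := by
  classical
  -- for each level the second part of the label
  have key : ∀ a' : Fin (n - 1), ∃ y : Dir m ⊕ (Fin n × ZMod m),
      match y with
      | .inl d => ¬ Sat a x0 I o (a'.val + 1 + 1) (ring n m d (pos n c (a'.val + 1)))
      | .inr z => 1 ≤ z.1.val ∧ a'.val + 1 + z.1.val < n ∧
          (∀ t, Sat a x0 I o (a'.val + 1 + z.1.val) ((pos n c (a'.val + 1)).1 +
            (if (!(c (a'.val + 1)).1) then (z.1.val : ZMod (n + 1)) else 0), t)) ∧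
          ¬ Sat a x0 I o (a'.val + 1 + z.1.val + 1) ((pos n c (a'.val + 1)).1 +
            (if (!(c (a'.val + 1)).1) then ((z.1.val + 1 : ℕ) : ZMod (n + 1)) else 0), z.2) := by
    intro a'
    have ha := a'.isLt
    by_cases h2 : ∃ d, ¬ Sat a x0 I o (a'.val + 1 + 1) (ring n m d (pos n c (a'.val + 1)))
    · obtain ⟨d, hd⟩ := h2
      exact ⟨Sum.inl d, hd⟩
    · push Not at h2
      by_contra hcon
      push Not at hcon
      set s : Bool := !(c (a'.val + 1)).1 with hs
      have hfull : ∀ i : ℕ, 1 ≤ i → a'.val + 1 + i ≤ n → ∀ t, Sat a x0 I o (a'.val + 1 + i)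
          ((pos n c (a'.val + 1)).1 + (if s then (i : ZMod (n + 1)) else 0), t) := by
        intro i hi
        induction i, hi using Nat.le_induction with
        | base =>
          intro _ t
          have h3 := h2 (s, t - (pos n c (a'.val + 1)).2)
          rw [ring_apply] at h3
          simpa using h3
        | succ i hi ih =>
          intro hin t
          by_contra hno
          have h3 := hcon (Sum.inr (⟨i, by omega⟩, t))
          simp only at h3
          exact h3 ⟨hi, by omega, ih (by omega), hno⟩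
      have h4 := hfull (n - (a'.val + 1)) (by omega) (by omega) 0
      rw [show a'.val + 1 + (n - (a'.val + 1)) = n by omega] at h4
      exact not_sat_top hR h4
  choose y hy using key
  set L : Fin (n - 1) → Label n m := fun a => (c a.val, y a) with hL
  have hdirs : ∀ j < n - 1, dirs L j = c j := by
    intro j hj
    rw [dirs, dif_pos hj]
  have hpos : ∀ a : Fin (n - 1), pos n (dirs L) (a.val + 1) = pos n c (a.val + 1) := by
    intro a
    have ha := a.isLt
    exact pos_congr (l := n - 1) hdirs _ (by omega)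
  -- the hits
  have hhit : ∀ x : Idx L, ∃ ν, Hit a o (L x.1).2.isLeft (val (ring n m) x0 I (n - lev L x.1) (pst L x.1 x.2.1))
      (val (ring n m) x0 I (n - lev L x.1 - 1) (ring n m (slt L x.1 x.2.1) (pst L x.1 x.2.1))) ν ∧
      ν < (if (L x.1).2.isLeft then T else T') ∧
      ((L x.1).2.isLeft → ν = cnt o (s (x.1.val + 1))) := by
    rintro ⟨a', t, ht⟩
    have ha := a'.isLt
    have hya := hy a'
    rcases hyy : y a' with d | z
    · rw [hyy] at hya
      have hL2 : (L a').2 = Sum.inl d := hyy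
      have e1 : lev L a' = a'.val + 1 := by simp [lev, hL2]
      have e2 : pst L a' t = pos n c (a'.val + 1) := by simp [pst, hL2, hpos a']
      have e3 : slt L a' t = d := by simp [slt, hL2]
      simp only [e1, e2, e3, hL2, Sum.isLeft_inl, if_true]
      have hin := inR_of_chain hc (show a'.val + 1 ≤ n - 1 by omega)
      have he := hc.1 (a'.val + 1) (by omega) (by omega)
      refine ⟨cnt o (s (a'.val + 1)), ⟨s (a'.val + 1), rd_le_of_not_sat hin hya, ?_⟩,
        hT _ _ he.1, fun _ => rfl⟩
      rw [if_pos rfl]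
      exact ⟨he, rfl⟩
    · rw [hyy] at hya
      obtain ⟨h1, h2, h3, h4⟩ := hya
      have hL2 : (L a').2 = Sum.inr z := hyy
      have e0 : oth L a' = !(c (a'.val + 1)).1 := by rw [oth, hdirs _ (by omega)]
      have e1 : lev L a' = a'.val + 1 + z.1.val := by simp [lev, hL2]
      have e2 : pst L a' t = ((pos n c (a'.val + 1)).1 +
            (if (!(c (a'.val + 1)).1) then (z.1.val : ZMod (n + 1)) else 0), t) := by
        simp only [pst, hL2, hpos a', e0]
      have e3 : slt L a' t = (!(c (a'.val + 1)).1, z.2 - t) := by simp only [slt, hL2, e0]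
      have e4 : ring n m (!(c (a'.val + 1)).1, z.2 - t) ((pos n c (a'.val + 1)).1 +
            (if (!(c (a'.val + 1)).1) then (z.1.val : ZMod (n + 1)) else 0), t) = ((pos n c (a'.val + 1)).1 +
            (if (!(c (a'.val + 1)).1) then ((z.1.val + 1 : ℕ) : ZMod (n + 1)) else 0), z.2) := by
        rw [ring_apply]
        refine Prod.ext ?_ ?_
        · by_cases hb : (!(c (a'.val + 1)).1) = true
          · simp only [hb, if_true]
            push_cast
            ring
          · simp only [hb]
            simp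
        · simp
      simp only [e1, e2, e3, hL2]
      obtain ⟨⟨r, hr⟩, h6⟩ := h3 t
      have hin := h6 r ⟨hr.1, hr.2.le⟩
      refine ⟨crip a o r, ⟨r, rd_le_of_not_sat hin (by rw [e4]; exact h4), ?_⟩, ?_, ?_⟩
      · rw [if_neg (by simp)]
        exact ⟨hr, rfl⟩
      · rw [if_neg (by simp)]
        exact hT' _ _ hr
      · intro h
        simp at h
  choose num hnum using hhit
  refine ⟨L, num, ?_, ⟨?_, ?_⟩, fun x => (hnum x).1⟩
  · intro a'
    have hya := hy a'
    rcases hyy : y a' with d | z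
    · have hL2 : (L a').2 = Sum.inl d := hyy
      simp only [hL2]
    · rw [hyy] at hya
      have hL2 : (L a').2 = Sum.inr z := hyy
      rw [hL2]
      exact ⟨hya.1, hya.2.1⟩
  · intro x
    exact (hnum x).2.1
  · intro x x' hx hx' hlt
    rw [(hnum x).2.2 hx, (hnum x').2.2 hx']
    have hlt' : x.1.val < x'.1.val := hlt
    have hx'1 := x'.1.isLt
    have hmono : ∀ k, ∀ j, 1 ≤ j → j + k ≤ n - 1 → 1 ≤ k → s (j + k) < s j := by
      intro k
      induction k with
      | zero => intro j _ _ h; omega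
      | succ k ih =>
        intro j hj hjk _
        rcases Nat.eq_zero_or_pos k with rfl | hk
        · exact hc.2 j hj (by omega)
        · exact (hc.2 (j + k) (by omega) (by omega)).trans (ih j hj (by omega) hk)
    have h5 := hmono (x'.1.val - x.1.val) (x.1.val + 1) (by omega) (by omega) (by omega)
    rw [show x.1.val + 1 + (x'.1.val - x.1.val) = x'.1.val + 1 by omega] at h5
    obtain ⟨l, hl1, hl2⟩ := (hc.1 (x'.1.val + 1) (by omega) (by omega)).1
    exact Pool.Agent.Helper6.IP.cnt_lt h5 hl1 hl2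

end

end Pool.Agent.Helper58.NB
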