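import Pool.Agent.Helper19.NF.Head
import Pool.Agent.Helper27.NB.Main
import Pool.Agent.Helper66.NB.Num
import Pool.Agent.Helper84.NB.Word

/-!
# The bound in numbers (programs over symbols)
-/

set_option autoImplicit false

namespace Pool.Agent.Helper58.NB

open Pool.Agent.Helper19.NF (Prog ring out Pos Dir)
open Pool.Agent.Helper27.NB (Hide wd word num num_injective num_lt main_bound)

/-- The bound in numbers. -/
theorem head {n m e : ℕ} [NeZero m] {σ S : ℕ} {F K Y : Type} [Field F] [Fintype F] [Field K] [Fintype K] [Algebra F K]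
    (he : 1 ≤ e) (δ : ℝ) (hδ : 0 < δ) (hlog : 2 * Real.log n / m ≤ δ / 2)
    (hr2 : (2 * (e * (2 * m) : ℕ) : ℝ) ≤ δ * Fintype.card K)
    (hm2 : (6 * (m * Fintype.card K) ^ 2 : ℝ) ≤ Real.sqrt n) (hk : n ^ 5 ≤ Fintype.card K ^ e)
    (x0 : Pos n m → Fin e → K) (h0 : Function.Injective x0)
    (P : Prog ((Fin e → K) × (K × K)) F (Y × Fin σ) σ S) (φ : (Fin e → K) → Y) (p T : ℕ)
    (hφ : ∀ y, Nat.card {b // φ b = y} ≤ p)
    (hT : (T : ℝ) ≤ (1 - 1 / Fintype.card F - δ) * ((Fintype.card K : ℝ) ^ e * (Fintype.card K : ℝ) ^ 2))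
    (hS : (S : ℝ) ≤ σ * (n : ℝ) ^ ((n : ℝ) / 3)) :
    (Nat.card {s : Fin σ × ((Fin e → K) × (K × K) → F) //
        P.Outputs s.2 (P.start s.1) (φ (out x0 fun b c => word e num (fun l => s.2 (b, l)) c), s.1) ∧
        Nat.card {b // P.Asks s.2 (P.start s.1) b} ≤ T} : ℝ) ≤
      (p / (Fintype.card K : ℝ) ^ e + 1 / 50) * Nat.card (Fin σ × ((Fin e → K) × (K × K) → F)) := by
  classical
  set Q := Fintype.card K with hQdef
  set q := Fintype.card F with hqdef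
  have hQ : 1 ≤ Q := Fintype.card_pos
  have hQR : (1 : ℝ) ≤ Q := by exact_mod_cast hQ
  have hq : 2 ≤ q := Fintype.one_lt_card
  have hqR : (2 : ℝ) ≤ q := by exact_mod_cast hq
  have hqQ : q ∣ Q := by
    have h1 : Fintype.card K = Fintype.card F ^ Module.finrank F K := Module.card_eq_pow_finrank
    rw [hQdef, h1]
    exact dvd_pow_self _ (Module.finrank_pos (R := F) (M := K)).ne'
  have hm : 1 ≤ m := Nat.one_le_iff_ne_zero.2 (NeZero.ne m)
  have hmR : (1 : ℝ) ≤ m := by exact_mod_cast hm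
  have hcB : Fintype.card (Fin e → K) = Q ^ e := by simp [hQdef]
  have hk1 : 1 ≤ Q ^ e := Nat.one_le_pow _ _ hQ
  have hkR : (0 : ℝ) < (Q : ℝ) ^ e := by positivity
  have hm2' : (6 * m ^ 2 : ℝ) ≤ Real.sqrt n := by
    refine le_trans ?_ hm2
    have : (m : ℝ) ^ 2 ≤ (m * Q) ^ 2 := by
      refine pow_le_pow_left₀ (by linarith) ?_ 2
      nlinarith
    linarith
  have hn : 1 ≤ n := Pool.Agent.Helper19.NF.one_le_of hm2'
  have hnR : (0 : ℝ) < n := by exact_mod_cast hn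
  -- `δ ≤ 1 - 1 / q`
  have hd1 : 0 ≤ 1 - 1 / (q : ℝ) - δ := by
    by_contra hneg
    push Not at hneg
    have h1 : (1 - 1 / (q : ℝ) - δ) * ((Q : ℝ) ^ e * (Q : ℝ) ^ 2) < 0 := mul_neg_of_neg_of_pos hneg (by positivity)
    have h2 : (0 : ℝ) ≤ T := Nat.cast_nonneg _
    linarith
  have hq0 : (0 : ℝ) < 1 / (q : ℝ) := by positivity
  have hδ1 : δ ≤ 1 := by linarith
  have hlog' : 2 * Real.log n ≤ m := by
    have h1 : 2 * Real.log n / m ≤ 1 := by linarith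
    rwa [div_le_one (by linarith)] at h1
  -- the numbers of symbols
  set r := e * (2 * m) with hrdef
  have hr : 1 ≤ r := Nat.mul_pos he (by omega)
  have hrQ : r ≤ Q := by
    have h1 : (2 * (r : ℝ)) ≤ Q := by
      have h2 : δ * (Q : ℝ) ≤ Q := by nlinarith
      exact hr2.trans h2
    have h3 : (r : ℝ) ≤ Q := by
      have : (0 : ℝ) ≤ r := Nat.cast_nonneg _
      linarith
    exact_mod_cast h3
  have hD : Fintype.card (Dir m) = 2 * m := by
    show Fintype.card (Bool × ZMod m) = 2 * m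
    rw [Fintype.card_prod, Fintype.card_bool, ZMod.card]
  have hQq : Q / q < Q := Nat.div_lt_self hQ hq
  -- `a + 1`
  obtain ⟨a, ha⟩ : ∃ a, a + 1 = (Q - (r - 1)) * (Q - Q / q) := by
    have h1 : 0 < (Q - (r - 1)) * (Q - Q / q) := Nat.mul_pos (by omega) (by omega)
    exact ⟨(Q - (r - 1)) * (Q - Q / q) - 1, by omega⟩
  set h := (r - 1) * Q + (Q - (r - 1)) * (Q / q) + 1 with hh
  have hsum : a + h = Q ^ 2 := by
    obtain ⟨u, hu⟩ : ∃ u, Q = (r - 1) + u := ⟨Q - (r - 1), by omega⟩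
    obtain ⟨v, hv⟩ : ∃ v, Q = Q / q + v := ⟨Q - Q / q, by omega⟩
    have e1 : Q - (r - 1) = u := by omega
    have e2 : Q - Q / q = v := by omega
    have h1 : a + h = u * v + ((r - 1) * Q + u * (Q / q)) := by
      rw [hh, e1]
      rw [e1, e2] at ha
      omega
    rw [h1]
    calc u * v + ((r - 1) * Q + u * (Q / q)) = (r - 1) * Q + u * (Q / q + v) := by ring
      _ = (r - 1) * Q + u * Q := by rw [← hv]
      _ = ((r - 1) + u) * Q := by ring
      _ = Q ^ 2 := by rw [← hu, pow_two]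
  have c1 : h ≤ Fintype.card K ^ 2 := by
    show h ≤ Q ^ 2
    omega
  have c2 : (e * Fintype.card (Dir m) - 1) * Fintype.card K +
      (Fintype.card K - (e * Fintype.card (Dir m) - 1)) * (Fintype.card K / Fintype.card F) < h := by
    rw [hD]
    exact Nat.lt_succ_self _
  obtain ⟨ρ, H, hH⟩ := Pool.Agent.Helper84.NB.exists_hide (F := F) (K := K) (D := Dir m) e he num num_injective
    (fun c => num_lt c) (by rw [hD]; exact hrQ) h c1 c2
  have hah : a + h = Fintype.card (K × K) := by rw [Fintype.card_prod, ← pow_two, hsum]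
  have hwd : ∀ J : (Fin e → K) × (K × K) → F, wd H J = fun b c => word e num (fun l => J (b, l)) c := by
    intro J
    funext b c
    exact congrFun (congrFun hH fun l => J (b, l)) c
  have h1 := main_bound hn H hah x0 h0 P φ p T hφ n hnR
  simp only [hwd] at h1
  rw [hcB] at h1
  push_cast at h1
  -- the parts
  have hK0 : (0 : ℝ) ≤ (T : ℝ) / (Q : ℝ) ^ e := by positivity
  have hK : (T : ℝ) / (Q : ℝ) ^ e ≤ (Q : ℝ) ^ 2 := by
    rw [div_le_iff₀ hkR]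
    refine hT.trans ?_
    have h3 : (0 : ℝ) ≤ (Q : ℝ) ^ e * (Q : ℝ) ^ 2 := by positivity
    nlinarith
  have hK0' : (0 : ℝ) ≤ ((T / (a + 1) : ℕ) : ℝ) / (Q : ℝ) ^ e := by positivity
  have hK' : ((T / (a + 1) : ℕ) : ℝ) / (Q : ℝ) ^ e ≤ 1 - 2 * Real.log n / m := by
    have h2 := Pool.Agent.Helper66.NB.ripe_part q Q r (Q ^ e) T δ hq hqQ hQ hr hk1 hδ hr2
      (by push_cast; exact hT)
    rw [← ha] at h2
    push_cast at h2
    linarith
  have h2 := Pool.Agent.Helper66.NB.numbers_real n m Q ((n : ℝ) ^ ((n : ℝ) / 3)) _ _ (by positivity) hm hQ hK0 hK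
    hK0' hK' hm2 le_rfl
  have h3 : ((n : ℝ) * (n + 1) * m) ^ 2 / (Q : ℝ) ^ e ≤ 1 / 100 := by
    have h4 := Pool.Agent.Helper19.NF.col_le hm2' hlog' hk
    have h5 : (100 : ℝ) * (n * (n + 1) * m) ^ 2 ≤ (Q : ℝ) ^ e := by exact_mod_cast h4
    rw [div_le_iff₀ hkR]
    linarith
  refine h1.trans ?_
  rw [Nat.card_prod, Nat.card_eq_fintype_card (α := Fin σ), Fintype.card_fin]
  push_cast
  have hN : (0 : ℝ) ≤ Nat.card ((Fin e → K) × (K × K) → F) := Nat.cast_nonneg _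
  refine le_trans ?_ (mul_assoc _ (σ : ℝ) (Nat.card ((Fin e → K) × (K × K) → F) : ℝ)).le
  refine mul_le_mul_of_nonneg_right ?_ hN
  set W : ℝ := Real.exp n * (4 * m ^ 2 * ((T : ℝ) / (Q : ℝ) ^ e) / n +
    2 * m ^ 2 * n * (((T / (a + 1) : ℕ) : ℝ) / (Q : ℝ) ^ e) ^ m) ^ (n - 1) with hW
  have hW0 : 0 ≤ W := by positivity
  have h4 : (S : ℝ) * W ≤ σ * ((n : ℝ) ^ ((n : ℝ) / 3) * W) := by
    refine le_trans ?_ (mul_assoc (σ : ℝ) ((n : ℝ) ^ ((n : ℝ) / 3)) W).le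
    exact mul_le_mul_of_nonneg_right hS hW0
  have hσ : (0 : ℝ) ≤ σ := Nat.cast_nonneg _
  have h5 : ((((n : ℝ) * (n + 1) * m) ^ 2 + p) / (Q : ℝ) ^ e : ℝ) =
      ((n : ℝ) * (n + 1) * m) ^ 2 / (Q : ℝ) ^ e + p / (Q : ℝ) ^ e := add_div _ _ _
  rw [h5]
  calc (σ : ℝ) * (((n : ℝ) * (n + 1) * m) ^ 2 / (Q : ℝ) ^ e + p / (Q : ℝ) ^ e +
        n * m * (((T / (a + 1) : ℕ) : ℝ) / (Q : ℝ) ^ e) ^ m) + S * W
      ≤ σ * (((n : ℝ) * (n + 1) * m) ^ 2 / (Q : ℝ) ^ e + p / (Q : ℝ) ^ e +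
        n * m * (((T / (a + 1) : ℕ) : ℝ) / (Q : ℝ) ^ e) ^ m) + σ * ((n : ℝ) ^ ((n : ℝ) / 3) * W) := by linarith
    _ = σ * (((n : ℝ) * (n + 1) * m) ^ 2 / (Q : ℝ) ^ e + p / (Q : ℝ) ^ e +
        (n * m * (((T / (a + 1) : ℕ) : ℝ) / (Q : ℝ) ^ e) ^ m + (n : ℝ) ^ ((n : ℝ) / 3) * W)) := by ring
    _ ≤ σ * (1 / 100 + p / (Q : ℝ) ^ e + 1 / 200) := by gcongr
    _ ≤ (p / (Q : ℝ) ^ e + 1 / 50) * σ := by nlinarith

/-- The same with the hypotheses in the order of the frame. -/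
theorem head' {F K : Type} [Field F] [Fintype F] [Field K] [Fintype K] [Algebra F K] {n m e σ S : ℕ} [NeZero m]
    {Y : Type} (he : 1 ≤ e) (δ : ℝ) (hδ : 0 < δ) (hlog : 2 * Real.log n / m ≤ δ / 2)
    (hQ : (2 * (2 * m * e : ℕ) : ℝ) ≤ δ * Fintype.card K) (_hQ' : 2 * m * e ≤ Fintype.card K)
    (hm2 : (6 * (m * Fintype.card K) ^ 2 : ℝ) ≤ Real.sqrt n) (hk : n ^ 5 ≤ Fintype.card K ^ e)
    (x0 : ZMod (n + 1) × ZMod m → Fin e → K) (h0 : Function.Injective x0) (φ : (Fin e → K) → Y) (p T : ℕ)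
    (hφ : ∀ y, Nat.card {b // φ b = y} ≤ p)
    (hT : (T : ℝ) ≤ (1 - 1 / Fintype.card F - δ) * (Fintype.card K ^ e * Fintype.card K ^ 2))
    (hS : (S : ℝ) ≤ σ * (n : ℝ) ^ ((n : ℝ) / 3)) (P : Prog ((Fin e → K) × (K × K)) F (Y × Fin σ) σ S) :
    (Nat.card {s : Fin σ × ((Fin e → K) × (K × K) → F) //
        P.Outputs s.2 (P.start s.1) (φ (out x0 fun b c => word e num (fun l => s.2 (b, l)) c), s.1) ∧
        Nat.card {b // P.Asks s.2 (P.start s.1) b} ≤ T} : ℝ) ≤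
      (p / (Fintype.card K : ℝ) ^ e + 1 / 50) * Nat.card (Fin σ × ((Fin e → K) × (K × K) → F)) := by
  have h1 : e * (2 * m) = 2 * m * e := by ring
  exact head he δ hδ hlog (by rw [h1]; exact hQ) hm2 hk x0 h0 P φ p T hφ hT hS

end Pool.Agent.Helper58.NB
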